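import Pool.Agent.Helper73.GenProg.Prog

/-!
Generator programs for MP_359409_lc: exported statements.
-/

namespace Pool.Agent.Helper73.GenProg

open Function Computability Pool.Agent.Helper72

/-! ### writes and well-formedness -/

theorem wr_emit {r x : ℕ} (h9 : x ≠ 9) (h15 : x ≠ 15) (hr : x ≠ r) :
    (emit r).wr x = false := by
  simp [emit, Cmd.wr, Cmd.mv, Cmd.pushL, h9, h15, hr]

theorem wr_genVar {x : ℕ} (h9 : x ≠ 9) (h13 : x ≠ 13) (h14 : x ≠ 14) (h15 : x ≠ 15)
    (nxt : Bool) (d : ℕ) : (genVar nxt d).wr x = false := by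
  cases nxt <;>
    simp [genVar, Cmd.wr, wr_emit h9 h15 h13, wr_emit h9 h15 h14, Cmd.wr_pushL _ h9]

theorem wr_genLit {x : ℕ} (h9 : x ≠ 9) (h13 : x ≠ 13) (h14 : x ≠ 14) (h15 : x ≠ 15)
    (Cn : ℕ) (l : Lit) : (genLit Cn l).wr x = false := by
  unfold genLit
  cases l.sgn <;> simp [Cmd.wr, wr_genVar h9 h13 h14 h15, Cmd.wr_pushL _ h9]

theorem wr_genCls {x : ℕ} (h9 : x ≠ 9) (h13 : x ≠ 13) (h14 : x ≠ 14) (h15 : x ≠ 15)
    (Cn : ℕ) (C : List Lit) : (genCls Cn C).wr x = false := by
  induction C with
  | nil => exact Cmd.wr_pushL _ h9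
  | cons l C ih =>
    rw [genCls, Cmd.wr, Cmd.wr, ih, wr_genLit h9 h13 h14 h15, Cmd.wr_pushL _ h9]
    rfl

theorem wr_genTs {x : ℕ} (h9 : x ≠ 9) (h13 : x ≠ 13) (h14 : x ≠ 14) (h15 : x ≠ 15)
    (Cn : ℕ) (Cs : List (List Lit)) : (genTs Cn Cs).wr x = false := by
  induction Cs with
  | nil => rfl
  | cons C Cs ih =>
    rw [genTs, Cmd.wr, Cmd.wr, ih, wr_genCls h9 h13 h14 h15, Cmd.wr_pushL _ h9]
    rfl

theorem ok_emit13 : (emit 13).ok = true := by decide
theorem ok_emit14 : (emit 14).ok = true := by decide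

theorem ok_genVar (nxt : Bool) (d : ℕ) : (genVar nxt d).ok = true := by
  rw [genVar, Cmd.ok, Cmd.ok, ok_emit13, Cmd.ok_pushL]
  cases nxt
  · rfl
  · rw [cond_true, ok_emit14]; rfl

theorem ok_genLit (Cn : ℕ) (l : Lit) : (genLit Cn l).ok = true := by
  unfold genLit
  cases l.sgn
  · rw [cond_false, Cmd.ok, ok_genVar, Cmd.ok_pushL]; rfl
  · rw [cond_true, ok_genVar]

theorem ok_genCls (Cn : ℕ) (C : List Lit) : (genCls Cn C).ok = true := by
  induction C with
  | nil => exact Cmd.ok_pushL _ _
  | cons l C ih => rw [genCls, Cmd.ok, Cmd.ok, ih, ok_genLit, Cmd.ok_pushL]; rfl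

theorem ok_genTs (Cn : ℕ) (Cs : List (List Lit)) : (genTs Cn Cs).ok = true := by
  induction Cs with
  | nil => rfl
  | cons C Cs ih => rw [genTs, Cmd.ok, Cmd.ok, ih, ok_genCls, Cmd.ok_pushL]; rfl

theorem wr_bodyProg {x : ℕ} (h9 : x ≠ 9) (h13 : x ≠ 13) (h14 : x ≠ 14) (h15 : x ≠ 15)
    (h16 : x ≠ 16) (Cn : ℕ) (Cs : List (List Lit)) : (bodyProg Cn Cs).wr x = false := by
  simp [bodyProg, Cmd.wr, wr_genTs h9 h13 h14 h15, Cmd.wr_pushL _ h13, h16]

theorem ok_bodyProg (Cn : ℕ) (Cs : List (List Lit)) : (bodyProg Cn Cs).ok = true := by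
  simp [bodyProg, Cmd.ok, ok_genTs]

theorem wr_genLoop {x r : ℕ} (h9 : x ≠ 9) (h13 : x ≠ 13) (h14 : x ≠ 14) (h15 : x ≠ 15)
    (h16 : x ≠ 16) (hr : x ≠ r) (Cn : ℕ) (Cs : List (List Lit)) :
    (genLoop Cn Cs r).wr x = false := by
  simp [genLoop, Cmd.wr, wr_bodyProg h9 h13 h14 h15 h16, Cmd.mv, h16, hr]

theorem ok_genLoop {r : ℕ} (h9 : r ≠ 9) (h13 : r ≠ 13) (h14 : r ≠ 14) (h15 : r ≠ 15)
    (h16 : r ≠ 16) (Cn : ℕ) (Cs : List (List Lit)) : (genLoop Cn Cs r).ok = true := by
  simp [genLoop, Cmd.ok, wr_bodyProg h9 h13 h14 h15 h16, ok_bodyProg, h16.symm, Cmd.wr]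

theorem wr_genRow {x : ℕ} (h9 : x ≠ 9) (h10 : x ≠ 10) (h13 : x ≠ 13) (h14 : x ≠ 14)
    (h15 : x ≠ 15) (h16 : x ≠ 16) (P : List Instr) (k : ℕ) : (genRow P k).wr x = false := by
  simp [genRow, Cmd.wr, wr_genTs h9 h13 h14 h15, wr_genLoop h9 h13 h14 h15 h16 h10,
    Cmd.wr_pushL _ h13]

theorem ok_genRow (P : List Instr) (k : ℕ) : (genRow P k).ok = true := by
  simp [genRow, Cmd.ok, ok_genTs, ok_genLoop]

theorem wr_genTab {x : ℕ} (h : x < 9 ∨ 30 ≤ x) (P : List Instr) (k acc : ℕ) :
    (genTab P k acc).wr x = false := by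
  have h9 : x ≠ 9 := by omega
  have h10 : x ≠ 10 := by omega
  have h13 : x ≠ 13 := by omega
  have h14 : x ≠ 14 := by omega
  have h15 : x ≠ 15 := by omega
  have h16 : x ≠ 16 := by omega
  have h17 : x ≠ 17 := by omega
  simp [genTab, Cmd.wr, wr_genTs h9 h13 h14 h15, wr_genLoop h9 h13 h14 h15 h16 h10,
    wr_genRow h9 h10 h13 h14 h15 h16, Cmd.wr_pushL _ h9, Cmd.wr_pushL _ h14, Cmd.mv, Cmd.mv2,
    Cmd.copy, Cmd.clear, *]

theorem ok_genTab (P : List Instr) (k acc : ℕ) : (genTab P k acc).ok = true := by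
  simp [genTab, Cmd.ok, ok_genTs, ok_genLoop, ok_genRow, wr_genRow, Cmd.wr, Cmd.wr_pushL,
    Cmd.copy]

/-! ### states with empty scratch registers -/

theorem K_of_empty {s : St} (h : ∀ r, 13 ≤ r → r < 30 → s r = []) :
    K s (s 9) (s 10) (s 11) (s 12) [] [] [] [] [] = s := by
  have := K_self s
  rwa [h 13 (by omega) (by omega), h 14 (by omega) (by omega), h 15 (by omega) (by omega),
    h 16 (by omega) (by omega), h 17 (by omega) (by omega)] at this

theorem K_of_empty' {s : St} (h : ∀ r, 14 ≤ r → r < 30 → s r = []) :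
    K s (s 9) (s 10) (s 11) (s 12) (s 13) [] [] [] [] = s := by
  have := K_self s
  rwa [h 14 (by omega) (by omega), h 15 (by omega) (by omega),
    h 16 (by omega) (by omega), h 17 (by omega) (by omega)] at this

/-! ### length bounds -/

/-- clauses of length at most `w` with variables at most `m` -/
def Bdd (w m : ℕ) (Cs : List ACls) : Prop := ∀ C ∈ Cs, C.length ≤ w ∧ ∀ l ∈ C, l.2 ≤ m

theorem Bdd.append {w m : ℕ} {Cs Ds : List ACls} (h1 : Bdd w m Cs) (h2 : Bdd w m Ds) :
    Bdd w m (Cs ++ Ds) := by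
  intro C hC
  rcases List.mem_append.1 hC with h | h
  · exact h1 C h
  · exact h2 C h

theorem Bdd.seqC {w m step : ℕ} {g : ℕ → List ACls} {n b : ℕ}
    (h : ∀ i < n, Bdd w m (g (b + i * step))) : Bdd w m (seqC step g n b) := by
  induction n generalizing b with
  | zero => intro C hC; simp [Helper72.seqC] at hC
  | succ n ih =>
    rw [Helper72.seqC]
    refine Bdd.append (by simpa using h 0 (by omega)) (ih fun i hi => ?_)
    have := h (i + 1) (by omega)
    rwa [show b + (i + 1) * step = b + step + i * step by ring] at this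

theorem cls_len_le {m : ℕ} : ∀ (C : ACls), (∀ l ∈ C, l.2 ≤ m) →
    (clsForm C).code.length ≤ 12 + C.length * (9 + 3 * m)
  | [], _ => by
    have h12 : (clsForm []).code.length = 12 := by decide
    rw [h12]
    omega
  | l :: C, h => by
    have ih := cls_len_le C fun l hl => h l (List.mem_cons_of_mem _ hl)
    have h0 := h l List.mem_cons_self
    have e : (litForm l).code.length ≤ 6 + 3 * m := by
      unfold litForm
      split_ifs
      · rw [code_var]; simp only [List.length_append, V_len, List.length_cons,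
          List.length_nil]; omega
      · rw [BForm.code, code_var]; simp only [List.length_append, V_len, List.length_cons,
          List.length_nil]; omega
    rw [clsForm, BForm.code]
    simp only [List.length_append, List.length_cons, List.length_nil]
    have : (C.length + 1) * (9 + 3 * m) = C.length * (9 + 3 * m) + (9 + 3 * m) := by ring
    omega

theorem addCode_len_le {w m : ℕ} {Cs : List ACls} (h : Bdd w m Cs) (x : List Bool) :
    (addCode Cs x).length ≤ x.length + Cs.length * (15 + w * (9 + 3 * m)) := by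
  induction Cs generalizing x with
  | nil => simp [addCode_nil]
  | cons C Cs ih =>
    rw [addCode_cons]
    refine (ih (fun C' hC' => h C' (List.mem_cons_of_mem _ hC')) _).trans ?_
    obtain ⟨h1, h2⟩ := h C List.mem_cons_self
    have h3 := cls_len_le C h2
    have h4 : C.length * (9 + 3 * m) ≤ w * (9 + 3 * m) := Nat.mul_le_mul_right _ h1
    have h5 : (C :: Cs).length * (15 + w * (9 + 3 * m)) =
      Cs.length * (15 + w * (9 + 3 * m)) + (15 + w * (9 + 3 * m)) := by
      simp only [List.length_cons]; ring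
    rw [h5]
    simp only [List.length_append, List.length_cons, List.length_nil]
    omega

theorem addCode_len_ge (Cs : List ACls) (x : List Bool) :
    Cs.length + x.length ≤ (addCode Cs x).length := by
  induction Cs generalizing x with
  | nil => simp [addCode_nil]
  | cons C Cs ih =>
    rw [addCode_cons]
    refine le_trans ?_ (ih _)
    simp only [List.length_append, List.length_cons, List.length_nil]
    omega

theorem seqC_len_le {step c : ℕ} {g : ℕ → List ACls} (h : ∀ b, (g b).length ≤ c) (n b : ℕ) :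
    (seqC step g n b).length ≤ n * c := by
  induction n generalizing b with
  | zero => simp [seqC]
  | succ n ih =>
    rw [seqC, List.length_append, add_mul, one_mul]
    have := h b; have := ih (b + step)
    omega

theorem seqC_len_ge {step c : ℕ} {g : ℕ → List ACls} (h : ∀ b, c ≤ (g b).length) (n b : ℕ) :
    n * c ≤ (seqC step g n b).length := by
  induction n generalizing b with
  | zero => simp [seqC]
  | succ n ih =>
    rw [seqC, List.length_append, add_mul, one_mul]
    have := h b; have := ih (b + step)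
    omega

theorem exists_bd (Cs : List (List Lit)) :
    ∃ w m, ∀ C ∈ Cs, C.length ≤ w ∧ ∀ l ∈ C, l.c ≤ m := by
  induction Cs with
  | nil => exact ⟨0, 0, by simp⟩
  | cons C Cs ih =>
    obtain ⟨w, m, h⟩ := ih
    have : ∃ m', ∀ l ∈ C, l.c ≤ m' := by
      induction C with
      | nil => exact ⟨0, by simp⟩
      | cons l C ih =>
        obtain ⟨m', hm⟩ := ih
        refine ⟨max l.c m', fun l' hl' => ?_⟩
        rcases List.mem_cons.1 hl' with rfl | h'
        · exact le_max_left _ _
        · exact (hm l' h').trans (le_max_right _ _)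
    obtain ⟨m', hm⟩ := this
    refine ⟨max C.length w, max m' m, fun D hD => ?_⟩
    rcases List.mem_cons.1 hD with rfl | h'
    · exact ⟨le_max_left _ _, fun l hl => (hm l hl).trans (le_max_left _ _)⟩
    · exact ⟨(h D h').1.trans (le_max_right _ _),
        fun l hl => ((h D h').2 l hl).trans (le_max_right _ _)⟩

theorem Bdd.inst {w m0 m Cn R b : ℕ} {Cs : List (List Lit)}
    (h : ∀ C ∈ Cs, C.length ≤ w ∧ ∀ l ∈ C, l.c ≤ m0) (hm : b + R + Cn + m0 ≤ m) :
    Bdd w m (Cs.map (instL Cn R b)) := by
  intro C hC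
  obtain ⟨D, hD, rfl⟩ := List.mem_map.1 hC
  refine ⟨by simpa [instL] using (h D hD).1, fun l hl => ?_⟩
  obtain ⟨l', hl', rfl⟩ := List.mem_map.1 hl
  have h1 := (h D hD).2 l' hl'
  have h2 : (if l'.nxt = true then R else 0) ≤ R := by split_ifs <;> omega
  have h3 : (if l'.dh = true then Cn else 0) ≤ Cn := by split_ifs <;> omega
  simp only
  omega

theorem tabF_len_ge (P : List Instr) (k acc B : ℕ) : B ≤ (tabF P k acc B).code.length := by
  rw [tabF, ← addCode_addF]
  refine le_trans ?_ (addCode_len_ge _ _)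
  have h1 : ∀ b, 1 ≤ (rowC P k B b).length := by
    intro b
    rw [rowC, List.length_append, List.length_map]
    have : 0 < (edgeT P k).length := by
      apply List.length_pos_of_ne_nil
      intro h
      have hmem : ∀ C, C ∈ edgeTq P k 0 → C ∈ edgeT P k := fun C hC =>
        mem_flatMap_range (Nat.succ_pos _) hC
      have hne : edgeTq P k 0 ≠ [] := by
        unfold edgeTq
        split <;> simp
      obtain ⟨C, hC⟩ := List.exists_mem_of_ne_nil _ hne
      have := hmem C hC
      rw [h] at this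
      simp at this
    omega
  have h2 := seqC_len_ge (step := nRow P k B) h1 B 0
  rw [tabC, List.length_append]
  omega

theorem tabF_len_le (P : List Instr) (k acc : ℕ) :
    ∃ T, PB T ∧ Monotone T ∧ ∀ B, (tabF P k acc B).code.length ≤ T B := by
  obtain ⟨w1, m1, h1⟩ := exists_bd (edgeT P k ++ (bodyT P k ++ (lastT k ++ (finT P k acc ++
    (init0T k ++ initBT k)))))
  set Cn := nCh P k with hCn
  set c1 := (edgeT P k).length + (bodyT P k).length + (lastT k).length
    + (finT P k acc).length + (init0T k).length + (initBT k).length with hc1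
  set x0 := (BForm.disj (.var 0) (.neg (.var 0))).code.length with hx0
  set Mf : ℕ → ℕ := fun B => (B + 1) * ((B + 1) * Cn) + (B + 1) * Cn + Cn + m1 with hMf
  set T : ℕ → ℕ := fun B => x0 + ((B + 1) * ((B + 1) * c1) + (B + 1) * c1)
    * (15 + w1 * (9 + 3 * Mf B)) with hT
  refine ⟨T, ?_, ?_, fun B => ?_⟩
  · have hB1 : PB fun B => B + 1 := PB.id.add (PB.const 1)
    have hM : PB Mf := by
      refine PB.add (PB.add (PB.add ?_ ?_) (PB.const Cn)) (PB.const m1)
      · exact hB1.mul (hB1.mul (PB.const Cn))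
      · exact hB1.mul (PB.const Cn)
    refine PB.add (PB.const x0) (PB.mul (PB.add ?_ ?_) ?_)
    · exact hB1.mul (hB1.mul (PB.const c1))
    · exact hB1.mul (PB.const c1)
    · exact PB.add (PB.const 15) ((PB.const w1).mul (PB.add (PB.const 9)
        ((PB.const 3).mul hM)))
  · have hMm : Monotone Mf := by
      intro a b hab
      simp only [hMf]
      gcongr
    intro a b hab
    have := hMm hab
    simp only [hT]
    gcongr
  · rw [tabF, ← addCode_addF]
    have hR : nRow P k B = (B + 1) * Cn := rfl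
    have hbd : Bdd w1 (Mf B) (tabC P k acc B) := by
      have key : ∀ (Cs : List (List Lit)), (∀ C ∈ Cs, C ∈ edgeT P k ++ (bodyT P k ++ (lastT k ++
          (finT P k acc ++ (init0T k ++ initBT k))))) → ∀ b, b ≤ B * nRow P k B + nRow P k B →
          Bdd w1 (Mf B) (Cs.map (instL Cn (nRow P k B) b)) := by
        intro Cs hCs b hb
        refine Bdd.inst (w := w1) (m0 := m1) (fun C hC => h1 C (hCs C hC)) ?_
        simp only [hMf]
        rw [hR] at hb ⊢
        have e : (B + 1) * ((B + 1) * Cn) = B * ((B + 1) * Cn) + (B + 1) * Cn := by ring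
        rw [e]
        omega
      have hBC : B * Cn ≤ nRow P k B := by
        rw [hR]; exact Nat.mul_le_mul_right _ (by omega)
      rw [tabC, ← hCn]
      refine Bdd.append (Bdd.seqC fun i hi => ?_) (Bdd.append ?_ (Bdd.append ?_
        (Bdd.seqC fun i hi => ?_)))
      · have hi' : (i + 1) * nRow P k B ≤ B * nRow P k B := Nat.mul_le_mul_right _ hi
        rw [add_mul, one_mul] at hi'
        rw [rowC, ← hCn]
        refine Bdd.append (key _ (fun C hC => by simp [hC]) _ (by omega)) (Bdd.append
          (Bdd.seqC fun j hj => key _ (fun C hC => by simp [hC]) _ ?_)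
          (key _ (fun C hC => by simp [hC]) _ ?_))
        · have : j * Cn ≤ B * Cn := Nat.mul_le_mul_right _ hj.le
          omega
        · omega
      · exact key _ (fun C hC => by simp [hC]) _ (by omega)
      · exact key _ (fun C hC => by simp [hC]) _ (by omega)
      · refine key _ (fun C hC => by simp [hC]) _ ?_
        have : i * Cn ≤ B * Cn := Nat.mul_le_mul_right _ hi.le
        omega
    refine (addCode_len_le hbd _).trans ?_
    simp only [hT]
    refine Nat.add_le_add_left (Nat.mul_le_mul_right _ ?_) _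
    have hrow : ∀ b, (rowC P k B b).length ≤ (B + 1) * c1 := by
      intro b
      rw [rowC, ← hCn, List.length_append, List.length_append, List.length_map,
        List.length_map]
      have h2 := seqC_len_le (step := Cn) (c := (bodyT P k).length)
        (g := fun b => (bodyT P k).map (instL Cn (nRow P k B) b)) (by simp) B b
      have h3 : B * (bodyT P k).length ≤ B * c1 := Nat.mul_le_mul_left _ (by omega)
      rw [add_mul, one_mul]
      omega
    have h4 := seqC_len_le (step := nRow P k B) hrow B 0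
    have h5 := seqC_len_le (step := Cn) (c := (initBT k).length)
        (g := fun b => (initBT k).map (instL Cn (nRow P k B) b)) (by simp) B 0
    rw [tabC, ← hCn, List.length_append, List.length_append, List.length_append,
      List.length_map, List.length_map]
    have h6 : B * (initBT k).length ≤ B * c1 := Nat.mul_le_mul_left _ (by omega)
    have e1 : (B + 1) * ((B + 1) * c1) = B * ((B + 1) * c1) + (B + 1) * c1 := by ring
    have e2 : (B + 1) * c1 = B * c1 + c1 := by ring
    rw [e1]
    omega

/-! ### the exported statements -/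

/-- a program writing the tableau formula -/
theorem exists_genTab (P : List Instr) (k acc : ℕ) :
    ∃ g : Cmd, g.ok = true ∧ (∀ x, x < 9 ∨ 30 ≤ x → g.wr x = false) ∧
      ∃ T, PB T ∧ Monotone T ∧ ∀ B s, s 9 = [] → s 10 = un B →
        (∀ r, 13 ≤ r → r < 30 → s r = []) →
        g.eval s = update s 9 (tabF P k acc B).code ∧ g.LB (T B) s := by
  refine ⟨genTab P k acc, ok_genTab P k acc, fun x hx => wr_genTab hx P k acc, tabT P k,
    ?_, ?_, fun B s h9 h10 h => ?_⟩
  · have hB1 : PB fun B => B + 1 := PB.id.add (PB.const 1)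
    exact (hB1.mul hB1).mul (PB.const _)
  · intro a b hab
    simp only [tabT]
    gcongr
  · have h1 := run_genTab P k acc s (s 11) (s 12) B
    have h2 := K_of_empty h
    have h3 : update s 9 (tabF P k acc B).code =
        K s (tabF P k acc B).code (s 10) (s 11) (s 12) [] [] [] [] [] := by
      conv_lhs => rw [← h2]
      rw [upd9]
    rw [h9, h10] at h2
    rw [h2] at h1
    rw [h3, h10]
    exact h1

/-- program writing the unit clauses for the first letters of the input -/
def genPref (Cn : ℕ) : Cmd :=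
  .seq (.loop 11
    (.seq (.push 16 false) (.seq (genTs Cn [[⟨true, false, false, 0⟩]]) (.pushL 13 (un Cn))))
    (.seq (.push 16 true) (.seq (genTs Cn [[⟨true, false, false, 1⟩]]) (.pushL 13 (un Cn)))))
    (.mv 16 11)

theorem ok_genPref (Cn : ℕ) : (genPref Cn).ok = true := by
  simp [genPref, Cmd.ok, ok_genTs, Cmd.wr, wr_genTs, Cmd.wr_pushL]

theorem wr_genPref {x : ℕ} (h : x < 9 ∨ 30 ≤ x) (Cn : ℕ) : (genPref Cn).wr x = false := by
  have h9 : x ≠ 9 := by omega
  have h11 : x ≠ 11 := by omega
  have h13 : x ≠ 13 := by omega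
  have h14 : x ≠ 14 := by omega
  have h15 : x ≠ 15 := by omega
  have h16 : x ≠ 16 := by omega
  simp [genPref, Cmd.wr, wr_genTs h9 h13 h14 h15, Cmd.wr_pushL _ h13, Cmd.mv, h11, h16]

theorem run_prefBody {L : ℕ} (s : St) (o B X N u v : List Bool) {b : ℕ} (hb : b ≤ L)
    (Cn : ℕ) (x : Bool) :
    Run L (if x = true then
      (Cmd.seq (.push 16 true) (.seq (genTs Cn [[⟨true, false, false, 1⟩]]) (.pushL 13 (un Cn))))
      else
      (Cmd.seq (.push 16 false) (.seq (genTs Cn [[⟨true, false, false, 0⟩]])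
        (.pushL 13 (un Cn)))))
      (K s o B X N (un b) [] [] u v)
      (K s (addCode [[(true, b + x.toNat)]] o) B X N (un (b + Cn)) [] [] (x :: u) v) := by
  have key : ∀ y : Bool, Run L
      (Cmd.seq (.push 16 y) (.seq (genTs Cn [[⟨true, false, false, y.toNat⟩]])
        (.pushL 13 (un Cn)))) (K s o B X N (un b) [] [] u v)
      (K s (addCode [[(true, b + y.toNat)]] o) B X N (un (b + Cn)) [] [] (y :: u) v) := by
    intro y
    refine Run.seq (Run.congr (run_push L 16 y _) rfl (by simp))
      (Run.seq (run_genTs (R := 0) s o B X N (y :: u) v hb (by omega) Cn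
        [[⟨true, false, false, y.toNat⟩]])
        (Run.congr (run_pushL L 13 _ _) rfl ?_))
    simp [add_comm, instL]
  cases x
  · exact key false
  · exact key true

theorem prefLoop {L : ℕ} (s : St) (B N v : List Bool) (Cn : ℕ) : ∀ (l : List Bool) (b : ℕ)
    (o u : List Bool), b + l.length * Cn ≤ L →
    let c1 : Cmd := .seq (.push 16 true) (.seq (genTs Cn [[⟨true, false, false, 1⟩]])
      (.pushL 13 (un Cn)))
    let c0 : Cmd := .seq (.push 16 false) (.seq (genTs Cn [[⟨true, false, false, 0⟩]])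
      (.pushL 13 (un Cn)))
    loopEval (fun x => if x then c1.eval else c0.eval) 11 l
      (K s o B l N (un b) [] [] u v) = K s (addCode (prefC Cn b l) o) B [] N
        (un (b + l.length * Cn)) [] [] (l.reverse ++ u) v ∧
    loopLB (fun x => if x then c1.eval else c0.eval) (fun x => if x then c1.LB L else c0.LB L)
      11 l (K s o B l N (un b) [] [] u v)
  | [], b, o, u, _ => by
    simp [loopEval, loopLB, prefC, addCode_nil]
  | x :: l, b, o, u, hb => by
    intro c1 c0
    have hlen : (x :: l).length * Cn = l.length * Cn + Cn := by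
      simp only [List.length_cons]; ring
    rw [hlen] at hb ⊢
    obtain ⟨h1, h2⟩ := run_prefBody (L := L) s o B l N u v (b := b) (by omega) Cn x
    obtain ⟨h3, h4⟩ := prefLoop (L := L) s B N v Cn l (b + Cn)
      (addCode [[(true, b + x.toNat)]] o) (x :: u) (by omega)
    have hb1 : (if x = true then c1.eval else c0.eval) (K s o B l N (un b) [] [] u v)
        = K s (addCode [[(true, b + x.toNat)]] o) B l N (un (b + Cn)) [] [] (x :: u) v := by
      rw [← h1]; cases x <;> rfl
    refine ⟨?_, ?_, ?_⟩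
    · rw [loopEval, upd11, hb1, h3]
      rw [prefC, addCode_cons]
      simp only [List.reverse_cons, List.append_assoc, List.cons_append, List.nil_append]
      rw [show b + Cn + l.length * Cn = b + (l.length * Cn + Cn) by ring]
      rfl
    · rw [upd11]
      cases x
      · exact h2
      · exact h2
    · show loopLB _ _ _ _ ((if x = true then c1.eval else c0.eval) (update _ 11 l))
      rw [upd11, hb1]
      exact h4

theorem genPref_run (Cn : ℕ) {L : ℕ} {s : St} (h : ∀ r, 13 ≤ r → r < 30 → s r = [])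
    (hL : (s 11).length * (Cn + 1) ≤ L) :
    (genPref Cn).eval s = update (update s 9 (addCode (prefC Cn 0 (s 11)) (s 9))) 13
      (un ((s 11).length * Cn)) ∧ (genPref Cn).LB L s := by
  have h2 := K_of_empty h
  have e : (s 11).length * (Cn + 1) = (s 11).length * Cn + (s 11).length := by ring
  rw [e] at hL
  have h1 : Run L (genPref Cn) (K s (s 9) (s 10) (s 11) (s 12) [] [] [] [] [])
      (K s (addCode (prefC Cn 0 (s 11)) (s 9)) (s 10) (s 11) (s 12) (un ((s 11).length * Cn))
        [] [] [] []) := by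
    obtain ⟨h3, h4⟩ := prefLoop (L := L) s (s 10) (s 12) [] Cn (s 11) 0 (s 9) [] (by omega)
    refine Run.seq (s' := K s (addCode (prefC Cn 0 (s 11)) (s 9)) (s 10) [] (s 12)
      (un (0 + (s 11).length * Cn)) [] [] ((s 11).reverse ++ []) []) ⟨h3, ?_, h4⟩ ?_
    · simp only [K11]; omega
    · refine Run.congr (run_mv (a := 16) (b := 11) (by decide) ?_) rfl ?_
      · simp; omega
      · simp
  rw [h2] at h1
  have h3 : update (update s 9 (addCode (prefC Cn 0 (s 11)) (s 9))) 13
      (un ((s 11).length * Cn)) = K s (addCode (prefC Cn 0 (s 11)) (s 9)) (s 10) (s 11) (s 12)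
      (un ((s 11).length * Cn)) [] [] [] [] := by
    conv_lhs => rw [← h2]
    simp only [upd9, upd13, K9, K11]
  rw [h3]
  exact h1

/-- program writing fixed clause templates at the base in register 13, which is cleared -/
def genAt (Cs : List (List Lit)) : Cmd := .seq (genTs 0 Cs) (.clear 13)

theorem ok_genAt (Cs : List (List Lit)) : (genAt Cs).ok = true := by
  simp [genAt, Cmd.ok, ok_genTs]

theorem wr_genAt {x : ℕ} (h : x < 9 ∨ 30 ≤ x) (Cs : List (List Lit)) :
    (genAt Cs).wr x = false := by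
  have h9 : x ≠ 9 := by omega
  have h13 : x ≠ 13 := by omega
  have h14 : x ≠ 14 := by omega
  have h15 : x ≠ 15 := by omega
  simp [genAt, Cmd.wr, wr_genTs h9 h13 h14 h15, Cmd.clear, h13]

theorem genAt_run (Cs : List (List Lit)) {L b : ℕ} {s : St}
    (h : ∀ r, 14 ≤ r → r < 30 → s r = []) (h13 : s 13 = un b) (hL : b ≤ L) :
    (genAt Cs).eval s = update (update s 9 (addCode (Cs.map (instL 0 0 b)) (s 9))) 13 [] ∧
      (genAt Cs).LB L s := by
  have h2 := K_of_empty' h
  have h1 : Run L (genAt Cs) (K s (s 9) (s 10) (s 11) (s 12) (s 13) [] [] [] [])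
      (K s (addCode (Cs.map (instL 0 0 b)) (s 9)) (s 10) (s 11) (s 12) [] [] [] [] []) := by
    rw [h13]
    refine Run.seq (run_genTs (R := 0) s _ _ _ _ _ _ hL (by omega) 0 Cs) ?_
    refine Run.congr (run_clear ?_) rfl ?_
    · simpa using hL
    · simp
  rw [h2] at h1
  have h3 : update (update s 9 (addCode (Cs.map (instL 0 0 b)) (s 9))) 13 [] =
      K s (addCode (Cs.map (instL 0 0 b)) (s 9)) (s 10) (s 11) (s 12) [] [] [] [] [] := by
    conv_lhs => rw [← h2]
    simp only [upd9, upd13, K9]
  rw [h3]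
  exact h1

/-- program writing `endC b`, for the base `b` in register 13 -/
def genEnd : Cmd := genAt [[⟨false, false, false, 0⟩], [⟨false, false, false, 1⟩]]

theorem ok_genEnd : genEnd.ok = true := ok_genAt _

theorem wr_genEnd {x : ℕ} (h : x < 9 ∨ 30 ≤ x) : genEnd.wr x = false := wr_genAt h _

theorem genEnd_run {L b : ℕ} {s : St} (h : ∀ r, 14 ≤ r → r < 30 → s r = [])
    (h13 : s 13 = un b) (hL : b ≤ L) :
    genEnd.eval s = update (update s 9 (addCode (endC b) (s 9))) 13 [] ∧ genEnd.LB L s := by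
  have := genAt_run [[⟨false, false, false, 0⟩], [⟨false, false, false, 1⟩]] h h13 hL
  unfold genEnd
  simpa [instL, endC] using this

/-- program writing the unit clause `(true, b + x)`, for the base `b` in register 13 -/
def genBit (x : Bool) : Cmd := genAt [[⟨true, false, false, x.toNat⟩]]

theorem ok_genBit (x : Bool) : (genBit x).ok = true := ok_genAt _

theorem wr_genBit {x : ℕ} (h : x < 9 ∨ 30 ≤ x) (y : Bool) : (genBit y).wr x = false :=
  wr_genAt h _

theorem genBit_run (x : Bool) {L b : ℕ} {s : St} (h : ∀ r, 14 ≤ r → r < 30 → s r = [])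
    (h13 : s 13 = un b) (hL : b ≤ L) :
    (genBit x).eval s = update (update s 9 (addCode [[(true, b + x.toNat)]] (s 9))) 13 [] ∧
      (genBit x).LB L s := by
  have := genAt_run [[⟨true, false, false, x.toNat⟩]] h h13 hL
  unfold genBit
  simpa [instL] using this

/-- program writing `nonEmptyC Cn N`, for the unary number `N` in register 12 -/
def genNonEmpty (Cn : ℕ) : Cmd :=
  .seq (genLoop Cn [[⟨true, false, false, 0⟩, ⟨true, false, false, 1⟩]] 12) (.clear 13)

theorem ok_genNonEmpty (Cn : ℕ) : (genNonEmpty Cn).ok = true := by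
  simp [genNonEmpty, Cmd.ok, ok_genLoop]

theorem wr_genNonEmpty {x : ℕ} (h : x < 9 ∨ 30 ≤ x) (Cn : ℕ) :
    (genNonEmpty Cn).wr x = false := by
  have h9 : x ≠ 9 := by omega
  have h12 : x ≠ 12 := by omega
  have h13 : x ≠ 13 := by omega
  have h14 : x ≠ 14 := by omega
  have h15 : x ≠ 15 := by omega
  have h16 : x ≠ 16 := by omega
  simp [genNonEmpty, Cmd.wr, wr_genLoop h9 h13 h14 h15 h16 h12, Cmd.clear, h13]

theorem genNonEmpty_run (Cn : ℕ) {L N : ℕ} {s : St} (h : ∀ r, 13 ≤ r → r < 30 → s r = [])
    (h12 : s 12 = un N) (hL : N * (Cn + 1) ≤ L) :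
    (genNonEmpty Cn).eval s = update s 9 (addCode (nonEmptyC Cn N) (s 9)) ∧
      (genNonEmpty Cn).LB L s := by
  have h2 := K_of_empty h
  have e : N * (Cn + 1) = N * Cn + N := by ring
  rw [e] at hL
  have h1 : Run L (genNonEmpty Cn) (K s (s 9) (s 10) (s 11) (s 12) [] [] [] [] [])
      (K s (addCode (nonEmptyC Cn N) (s 9)) (s 10) (s 11) (s 12) [] [] [] [] []) := by
    rw [h12]
    refine Run.seq (run_genLoop12 (b := 0) (R := 0) s _ _ _ _ (by omega) (by omega)
      (by omega) _) ?_
    refine Run.congr (run_clear ?_) rfl ?_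
    · simp; omega
    · simp [nonEmptyC, instL]
  rw [h2] at h1
  have h3 : update s 9 (addCode (nonEmptyC Cn N) (s 9)) =
      K s (addCode (nonEmptyC Cn N) (s 9)) (s 10) (s 11) (s 12) [] [] [] [] [] := by
    conv_lhs => rw [← h2]
    simp only [upd9, K9]
  rw [h3]
  exact h1

end Pool.Agent.Helper73.GenProg
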