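import Pool.Agent.Helper72.Gen

/-!
Runs of loop programs, explicit register states, and the state constructor used by the
generator programs.
-/

namespace Pool.Agent.Helper73.GenProg

open Function Pool.Agent.Helper72

/-- running `c` from `s` ends in `s'`, all loops having at most `L` iterations -/
def Run (L : ℕ) (c : Cmd) (s s' : St) : Prop := c.eval s = s' ∧ c.LB L s

theorem Run.seq {L : ℕ} {c d : Cmd} {s s' s'' : St} (h1 : Run L c s s') (h2 : Run L d s' s'') :
    Run L (.seq c d) s s'' :=
  ⟨by rw [Cmd.eval_seq, h1.1, h2.1], h1.2, by rw [h1.1]; exact h2.2⟩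

theorem Run.nop (L : ℕ) (s : St) : Run L .nop s s := ⟨rfl, trivial⟩

theorem Run.congr {L : ℕ} {c : Cmd} {s s' t t' : St} (h : Run L c s s') (e : s = t)
    (e' : s' = t') : Run L c t t' := e ▸ e' ▸ h

theorem Run.mono {L L' : ℕ} {c : Cmd} {s s' : St} (h : Run L c s s') (hL : L ≤ L') :
    Run L' c s s' := ⟨h.1, h.2.mono hL⟩

theorem run_push (L r : ℕ) (b : Bool) (s : St) :
    Run L (.push r b) s (update s r (b :: s r)) := ⟨rfl, trivial⟩

theorem run_pushL (L r : ℕ) (l : List Bool) (s : St) :
    Run L (.pushL r l) s (update s r (l ++ s r)) := ⟨by simp, by simp⟩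

theorem run_clear {L r : ℕ} {s : St} (h : (s r).length ≤ L) :
    Run L (.clear r) s (update s r []) := ⟨by simp, Cmd.LB_clear h⟩

theorem run_mv {L a b : ℕ} (hab : a ≠ b) {s : St} (h : (s a).length ≤ L) :
    Run L (.mv a b) s (update (update s a []) b ((s a).reverse ++ s b)) :=
  ⟨Cmd.eval_mv hab s, Cmd.LB_mv hab h⟩

theorem loop_un_aux {r : ℕ} {c : Cmd} {L n : ℕ} (S : ℕ → St)
    (h : ∀ i < n, Run L c (update (S i) r (un (n - 1 - i))) (S (i + 1))) :
    ∀ m i, i + m = n →
      loopEval (fun b => if b then c.eval else Cmd.eval .nop) r (un m) (S i) = S n ∧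
      loopLB (fun b => if b then c.eval else Cmd.eval .nop)
        (fun b => if b then c.LB L else Cmd.LB L .nop) r (un m) (S i)
  | 0, i, hi => by
    obtain rfl : i = n := by omega
    exact ⟨rfl, trivial⟩
  | m + 1, i, hi => by
    obtain ⟨h1, h2⟩ := h i (by omega)
    have e : n - 1 - i = m := by omega
    rw [e] at h1 h2
    have hu : un (m + 1) = true :: un m := rfl
    rw [hu]
    obtain ⟨h3, h4⟩ := loop_un_aux S h m (i + 1) (by omega)
    have hb : (if true = true then c.eval else Cmd.eval .nop) (update (S i) r (un m))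
      = S (i + 1) := by simpa using h1
    refine ⟨?_, ?_, ?_⟩
    · rw [loopEval, hb, h3]
    · simpa using h2
    · show loopLB _ _ _ _ (c.eval (update (S i) r (un m)))
      rw [h1]; exact h4

/-- loops over a unary register -/
theorem run_loop_un {r : ℕ} {c : Cmd} {L n : ℕ} (hn : n ≤ L) (S : ℕ → St)
    (hr : S 0 r = un n)
    (h : ∀ i < n, Run L c (update (S i) r (un (n - 1 - i))) (S (i + 1))) :
    Run L (.loop r .nop c) (S 0) (S n) := by
  obtain ⟨h1, h2⟩ := loop_un_aux S h n 0 (by omega)
  refine ⟨?_, ?_, ?_⟩
  · rw [Cmd.eval, hr]; exact h1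
  · rw [hr]; simpa using hn
  · rw [hr]; exact h2

/-- state with prescribed contents of the registers 9 to 17 -/
def K (s : St) (o B X N b R t u v : List Bool) : St := fun r =>
  if r = 9 then o else if r = 10 then B else if r = 11 then X else if r = 12 then N
  else if r = 13 then b else if r = 14 then R else if r = 15 then t else if r = 16 then u
  else if r = 17 then v else s r

section

variable (s : St) (o B X N b R t u v y : List Bool)

@[simp] theorem K9 : K s o B X N b R t u v 9 = o := rfl
@[simp] theorem K10 : K s o B X N b R t u v 10 = B := rfl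
@[simp] theorem K11 : K s o B X N b R t u v 11 = X := rfl
@[simp] theorem K12 : K s o B X N b R t u v 12 = N := rfl
@[simp] theorem K13 : K s o B X N b R t u v 13 = b := rfl
@[simp] theorem K14 : K s o B X N b R t u v 14 = R := rfl
@[simp] theorem K15 : K s o B X N b R t u v 15 = t := rfl
@[simp] theorem K16 : K s o B X N b R t u v 16 = u := rfl
@[simp] theorem K17 : K s o B X N b R t u v 17 = v := rfl

@[simp] theorem upd9 : update (K s o B X N b R t u v) 9 y = K s y B X N b R t u v := by
  funext r; by_cases h : r = 9
  · subst h; rfl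
  · rw [update_of_ne h]; simp [K, h]

@[simp] theorem upd10 : update (K s o B X N b R t u v) 10 y = K s o y X N b R t u v := by
  funext r; by_cases h : r = 10
  · subst h; rfl
  · rw [update_of_ne h]; simp [K, h]

@[simp] theorem upd11 : update (K s o B X N b R t u v) 11 y = K s o B y N b R t u v := by
  funext r; by_cases h : r = 11
  · subst h; rfl
  · rw [update_of_ne h]; simp [K, h]

@[simp] theorem upd12 : update (K s o B X N b R t u v) 12 y = K s o B X y b R t u v := by
  funext r; by_cases h : r = 12
  · subst h; rfl
  · rw [update_of_ne h]; simp [K, h]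

@[simp] theorem upd13 : update (K s o B X N b R t u v) 13 y = K s o B X N y R t u v := by
  funext r; by_cases h : r = 13
  · subst h; rfl
  · rw [update_of_ne h]; simp [K, h]

@[simp] theorem upd14 : update (K s o B X N b R t u v) 14 y = K s o B X N b y t u v := by
  funext r; by_cases h : r = 14
  · subst h; rfl
  · rw [update_of_ne h]; simp [K, h]

@[simp] theorem upd15 : update (K s o B X N b R t u v) 15 y = K s o B X N b R y u v := by
  funext r; by_cases h : r = 15
  · subst h; rfl
  · rw [update_of_ne h]; simp [K, h]

@[simp] theorem upd16 : update (K s o B X N b R t u v) 16 y = K s o B X N b R t y v := by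
  funext r; by_cases h : r = 16
  · subst h; rfl
  · rw [update_of_ne h]; simp [K, h]

@[simp] theorem upd17 : update (K s o B X N b R t u v) 17 y = K s o B X N b R t u y := by
  funext r; by_cases h : r = 17
  · subst h; rfl
  · rw [update_of_ne h]; simp [K, h]

end

theorem K_self (s : St) : K s (s 9) (s 10) (s 11) (s 12) (s 13) (s 14) (s 15) (s 16) (s 17)
    = s := by
  funext r
  unfold K
  split_ifs <;> simp_all

theorem un_add (a b : ℕ) : un a ++ un b = un (a + b) := by
  simp [un]

theorem un_rev (a : ℕ) : (un a).reverse = un a := by simp [un]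

theorem un_zero : un 0 = [] := rfl

theorem un_len (a : ℕ) : (un a).length = a := by simp [un]

end Pool.Agent.Helper73.GenProg
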