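import Pool.Agent.Helper73.GenProg.Run

/-!
Generator programs: programs writing the binary codes of the tableau clauses.
-/

namespace Pool.Agent.Helper73.GenProg

open Function Computability Pool.Agent.Helper72

/-- put the codes of the conjunctions with the clauses `Cs` in front of `x` -/
def addCode (Cs : List ACls) (x : List Bool) : List Bool :=
  Cs.foldl (fun x C => [true, false, true] ++ ((clsForm C).code ++ x)) x

theorem addCode_addF (Cs : List ACls) (ψ : BForm) : addCode Cs ψ.code = (addF Cs ψ).code := by
  unfold addCode addF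
  induction Cs generalizing ψ with
  | nil => rfl
  | cons C Cs ih =>
    simp only [List.foldl_cons]
    exact ih (.conj (clsForm C) ψ)

theorem addCode_append (Cs Ds : List ACls) (x : List Bool) :
    addCode (Cs ++ Ds) x = addCode Ds (addCode Cs x) := by
  simp [addCode, List.foldl_append]

theorem addCode_nil (x : List Bool) : addCode [] x = x := rfl

theorem addCode_cons (C : ACls) (Cs : List ACls) (x : List Bool) :
    addCode (C :: Cs) x = addCode Cs ([true, false, true] ++ ((clsForm C).code ++ x)) := rfl

/-- code of the index of variable number `n` -/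
def V (n : ℕ) : List Bool := (List.replicate n [false, true, true]).flatten

theorem V_zero : V 0 = [] := rfl

theorem V_succ (n : ℕ) : V (n + 1) = [false, true, true] ++ V n := by
  simp [V, List.replicate_succ]

theorem V_add (a b : ℕ) : V a ++ V b = V (a + b) := by
  rw [V, V, V, ← List.flatten_append, List.replicate_append_replicate]

theorem V_len (n : ℕ) : (V n).length = 3 * n := by
  induction n with
  | zero => rfl
  | succ n ih => rw [V_succ]; simp only [List.length_append, ih, List.length_cons,
      List.length_nil]; ring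

theorem encodeNum_bit1 (x : Num) : encodeNum x.bit1 = true :: encodeNum x := by
  cases x <;> rfl

theorem encodeNat_pow (n : ℕ) : encodeNat (2 ^ n - 1) = un n := by
  induction n with
  | zero => rfl
  | succ n ih =>
    have h : 2 ^ (n + 1) - 1 = Nat.bit true (2 ^ n - 1) := by
      have := Nat.one_le_two_pow (n := n)
      simp only [Nat.bit, cond_true, pow_succ]
      omega
    have h2 : ((Nat.bit true (2 ^ n - 1) : ℕ) : Num) = Num.bit1 ((2 ^ n - 1 : ℕ) : Num) := by
      rw [← Num.ofNat'_eq, Num.ofNat'_bit, Num.ofNat'_eq]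
      rfl
    unfold encodeNat at ih ⊢
    rw [h, h2, encodeNum_bit1, ih]
    rfl

theorem code_var (n : ℕ) : (BForm.var (2 ^ n - 1)).code = [false, false, true] ++ V n := by
  rw [BForm.code, encodeNat_pow]
  congr 1
  induction n with
  | zero => rfl
  | succ n ih =>
    rw [V_succ, un, List.replicate_succ, List.flatMap_cons, ih]

theorem run_push15 (L : ℕ) (y : List Bool) (s : St) (o B X N b R t u v : List Bool) :
    Run L (.seq (.push 15 true) (.pushL 9 y)) (K s o B X N b R t u v)
      (K s (y ++ o) B X N b R (true :: t) u v) :=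
  Run.congr ((run_push L 15 true _).seq (run_pushL L 9 y _)) rfl (by simp)

/-- write the code of the unary number in register `r` -/
def emit (r : ℕ) : Cmd :=
  .seq (.loop r .nop (.seq (.push 15 true) (.pushL 9 [false, true, true]))) (.mv 15 r)

section

variable {L : ℕ} (s : St) (o B X N R t u v : List Bool)

theorem run_emit13 {n : ℕ} (hn : n ≤ L) :
    Run L (emit 13) (K s o B X N (un n) R [] u v) (K s (V n ++ o) B X N (un n) R [] u v) := by
  have h1 := run_loop_un (r := 13) (c := .seq (.push 15 true) (.pushL 9 [false, true, true]))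
    hn (fun i => K s (V i ++ o) B X N (un (n - i)) R (un i) u v) rfl (by
      intro i hi
      refine Run.congr (run_push15 L [false, true, true] s (V i ++ o) B X N
        (un (n - 1 - i)) R (un i) u v) (by simp) ?_
      have e1 : n - 1 - i = n - (i + 1) := by omega
      rw [V_succ, List.append_assoc, e1]
      rfl)
  refine (Run.congr h1 ?_ rfl).seq (Run.congr (run_mv (a := 15) (b := 13) (by decide) ?_) rfl ?_)
  · simp [V_zero]
  · simpa using hn
  · simp

theorem run_emit14 {b : List Bool} {n : ℕ} (hn : n ≤ L) :
    Run L (emit 14) (K s o B X N b (un n) [] u v) (K s (V n ++ o) B X N b (un n) [] u v) := by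
  have h1 := run_loop_un (r := 14) (c := .seq (.push 15 true) (.pushL 9 [false, true, true]))
    hn (fun i => K s (V i ++ o) B X N b (un (n - i)) (un i) u v) rfl (by
      intro i hi
      refine Run.congr (run_push15 L [false, true, true] s (V i ++ o) B X N
        b (un (n - 1 - i)) (un i) u v) (by simp) ?_
      have e1 : n - 1 - i = n - (i + 1) := by omega
      rw [V_succ, List.append_assoc, e1]
      rfl)
  refine (Run.congr h1 ?_ rfl).seq (Run.congr (run_mv (a := 15) (b := 14) (by decide) ?_) rfl ?_)
  · simp [V_zero]
  · simpa using hn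
  · simp

end

/-- write the code of a variable -/
def genVar (nxt : Bool) (d : ℕ) : Cmd :=
  .seq (emit 13) (.seq (bif nxt then emit 14 else .nop) (.pushL 9 ([false, false, true] ++ V d)))

theorem run_genVar {L : ℕ} (s : St) (o B X N u v : List Bool) {b R : ℕ} (hb : b ≤ L)
    (hR : R ≤ L) (nxt : Bool) (d : ℕ) :
    Run L (genVar nxt d) (K s o B X N (un b) (un R) [] u v)
      (K s ((BForm.var (2 ^ (b + (if nxt then R else 0) + d) - 1)).code ++ o)
        B X N (un b) (un R) [] u v) := by
  refine (run_emit13 s o B X N (un R) u v hb).seq ?_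
  rw [code_var]
  cases nxt
  · refine (Run.nop L _).seq (Run.congr (run_pushL L 9 _ _) rfl ?_)
    simp only [K9, upd9, List.append_assoc, Bool.false_eq_true, if_false, add_zero]
    rw [← List.append_assoc (V d), V_add, add_comm d b]
  · refine (run_emit14 s (V b ++ o) B X N u v hR).seq (Run.congr (run_pushL L 9 _ _) rfl ?_)
    simp only [K9, upd9, List.append_assoc, if_true]
    rw [← List.append_assoc (V R), V_add, ← List.append_assoc (V d), V_add,
      show d + (R + b) = b + R + d by ring]

/-- write the code of a literal -/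
def genLit (Cn : ℕ) (l : Lit) : Cmd :=
  bif l.sgn then genVar l.nxt ((if l.dh then Cn else 0) + l.c)
  else .seq (genVar l.nxt ((if l.dh then Cn else 0) + l.c)) (.pushL 9 [true, false, false])

theorem run_genLit {L : ℕ} (s : St) (o B X N u v : List Bool) {b R : ℕ} (hb : b ≤ L)
    (hR : R ≤ L) (Cn : ℕ) (l : Lit) :
    Run L (genLit Cn l) (K s o B X N (un b) (un R) [] u v)
      (K s ((litForm (l.sgn, b + (if l.nxt then R else 0) + (if l.dh then Cn else 0)
        + l.c)).code ++ o) B X N (un b) (un R) [] u v) := by
  have h := run_genVar s o B X N u v hb hR l.nxt ((if l.dh then Cn else 0) + l.c)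
  rw [← add_assoc] at h
  unfold genLit litForm
  cases l.sgn
  · refine h.seq (Run.congr (run_pushL L 9 _ _) rfl ?_)
    simp only [K9, upd9, Bool.false_eq_true, if_false]
    rfl
  · simpa using h

/-- write the code of a clause -/
def genCls (Cn : ℕ) : List Lit → Cmd
  | [] => .pushL 9 (clsForm []).code
  | l :: C => .seq (genCls Cn C) (.seq (genLit Cn l) (.pushL 9 [true, true, false]))

theorem run_genCls {L : ℕ} (s : St) (o B X N u v : List Bool) {b R : ℕ} (hb : b ≤ L)
    (hR : R ≤ L) (Cn : ℕ) (C : List Lit) :
    Run L (genCls Cn C) (K s o B X N (un b) (un R) [] u v)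
      (K s ((clsForm (instL Cn R b C)).code ++ o) B X N (un b) (un R) [] u v) := by
  induction C with
  | nil => exact Run.congr (run_pushL L 9 _ _) rfl (by simp [instL])
  | cons l C ih =>
    refine ih.seq ((run_genLit s _ B X N u v hb hR Cn l).seq
      (Run.congr (run_pushL L 9 _ _) rfl ?_))
    simp only [K9, upd9, instL, List.map_cons, clsForm, BForm.code, List.append_assoc]

/-- write the codes of several clauses -/
def genTs (Cn : ℕ) : List (List Lit) → Cmd
  | [] => .nop
  | C :: Cs => .seq (.seq (genCls Cn C) (.pushL 9 [true, false, true])) (genTs Cn Cs)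

theorem run_genTs {L : ℕ} (s : St) (o B X N u v : List Bool) {b R : ℕ} (hb : b ≤ L)
    (hR : R ≤ L) (Cn : ℕ) (Cs : List (List Lit)) :
    Run L (genTs Cn Cs) (K s o B X N (un b) (un R) [] u v)
      (K s (addCode (Cs.map (instL Cn R b)) o) B X N (un b) (un R) [] u v) := by
  induction Cs generalizing o with
  | nil => exact Run.nop L _
  | cons C Cs ih =>
    refine Run.seq ((run_genCls s o B X N u v hb hR Cn C).seq (run_pushL L 9 _ _)) ?_
    simp only [K9, upd9, List.map_cons, addCode_cons]
    exact ih _

theorem seqC_succ (step : ℕ) (g : ℕ → List ACls) (n b : ℕ) :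
    seqC step g (n + 1) b = seqC step g n b ++ g (b + n * step) := by
  induction n generalizing b with
  | zero => simp [seqC]
  | succ n ih =>
    rw [seqC, ih, seqC, List.append_assoc, show b + step + n * step = b + (n + 1) * step by ring]

/-- body of the clause loops -/
def bodyProg (Cn : ℕ) (Cs : List (List Lit)) : Cmd :=
  .seq (.push 16 true) (.seq (genTs Cn Cs) (.pushL 13 (un Cn)))

theorem run_bodyProg {L : ℕ} (s : St) (o B X N u v : List Bool) {b R : ℕ} (hb : b ≤ L)
    (hR : R ≤ L) (Cn : ℕ) (Cs : List (List Lit)) :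
    Run L (bodyProg Cn Cs) (K s o B X N (un b) (un R) [] u v)
      (K s (addCode (Cs.map (instL Cn R b)) o) B X N (un (b + Cn)) (un R) []
        (true :: u) v) := by
  refine Run.seq (Run.congr (run_push L 16 true _) rfl (by simp))
    (Run.seq (run_genTs s o B X N (true :: u) v hb hR Cn Cs)
      (Run.congr (run_pushL L 13 _ _) rfl ?_))
  simp [add_comm]

/-- clause loop over the unary register `r`, which is restored at the end -/
def genLoop (Cn : ℕ) (Cs : List (List Lit)) (r : ℕ) : Cmd :=
  .seq (.loop r .nop (bodyProg Cn Cs)) (.mv 16 r)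

theorem run_genLoop10 {L : ℕ} (s : St) (o X N v : List Bool) {b R n Cn : ℕ}
    (hb : b + n * Cn ≤ L) (hn : n ≤ L) (hR : R ≤ L) (Cs : List (List Lit)) :
    Run L (genLoop Cn Cs 10) (K s o (un n) X N (un b) (un R) [] [] v)
      (K s (addCode (seqC Cn (fun b => Cs.map (instL Cn R b)) n b) o) (un n) X N
        (un (b + n * Cn)) (un R) [] [] v) := by
  have h1 := run_loop_un (r := 10) (c := bodyProg Cn Cs) hn
    (fun i => K s (addCode (seqC Cn (fun b => Cs.map (instL Cn R b)) i b) o) (un (n - i)) X N
      (un (b + i * Cn)) (un R) [] (un i) v) rfl (by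
      intro i hi
      refine Run.congr (run_bodyProg s
        (addCode (seqC Cn (fun b => Cs.map (instL Cn R b)) i b) o) (un (n - 1 - i)) X N (un i) v
        (b := b + i * Cn) (R := R) ?_ hR Cn Cs) (by simp only [upd10]) ?_
      · have : i * Cn ≤ n * Cn := Nat.mul_le_mul_right _ hi.le
        omega
      · rw [seqC_succ, addCode_append, show n - 1 - i = n - (i + 1) by omega,
          show b + i * Cn + Cn = b + (i + 1) * Cn by ring]
        rfl)
  refine (Run.congr h1 ?_ rfl).seq (Run.congr (run_mv (a := 16) (b := 10) (by decide) ?_) rfl ?_)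
  · simp [seqC, addCode_nil]
  · simpa using hn
  · simp

theorem run_genLoop12 {L : ℕ} (s : St) (o B X v : List Bool) {b R n Cn : ℕ}
    (hb : b + n * Cn ≤ L) (hn : n ≤ L) (hR : R ≤ L) (Cs : List (List Lit)) :
    Run L (genLoop Cn Cs 12) (K s o B X (un n) (un b) (un R) [] [] v)
      (K s (addCode (seqC Cn (fun b => Cs.map (instL Cn R b)) n b) o) B X (un n)
        (un (b + n * Cn)) (un R) [] [] v) := by
  have h1 := run_loop_un (r := 12) (c := bodyProg Cn Cs) hn
    (fun i => K s (addCode (seqC Cn (fun b => Cs.map (instL Cn R b)) i b) o) B X (un (n - i))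
      (un (b + i * Cn)) (un R) [] (un i) v) rfl (by
      intro i hi
      refine Run.congr (run_bodyProg s
        (addCode (seqC Cn (fun b => Cs.map (instL Cn R b)) i b) o) B X (un (n - 1 - i)) (un i) v
        (b := b + i * Cn) (R := R) ?_ hR Cn Cs) (by simp only [upd12]) ?_
      · have : i * Cn ≤ n * Cn := Nat.mul_le_mul_right _ hi.le
        omega
      · rw [seqC_succ, addCode_append, show n - 1 - i = n - (i + 1) by omega,
          show b + i * Cn + Cn = b + (i + 1) * Cn by ring]
        rfl)
  refine (Run.congr h1 ?_ rfl).seq (Run.congr (run_mv (a := 16) (b := 12) (by decide) ?_) rfl ?_)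
  · simp [seqC, addCode_nil]
  · simpa using hn
  · simp

/-- program writing the clauses of one row of the tableau -/
def genRow (P : List Instr) (k : ℕ) : Cmd :=
  .seq (genTs (nCh P k) (edgeT P k)) (.seq (genLoop (nCh P k) (bodyT P k) 10)
    (.seq (genTs (nCh P k) (lastT k)) (.pushL 13 (un (nCh P k)))))

theorem run_genRow {L : ℕ} (P : List Instr) (k : ℕ) (s : St) (o X N v : List Bool) {b B : ℕ}
    (hb : b + nRow P k B ≤ L) (hB : B ≤ L) :
    Run L (genRow P k) (K s o (un B) X N (un b) (un (nRow P k B)) [] [] v)
      (K s (addCode (rowC P k B b) o) (un B) X N (un (b + nRow P k B)) (un (nRow P k B))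
        [] [] v) := by
  have e : nRow P k B = B * nCh P k + nCh P k := by unfold nRow; ring
  refine Run.seq (run_genTs s o (un B) X N [] v (by omega) (by omega) _ _) ?_
  refine Run.seq (run_genLoop10 s _ X N v (by omega) hB (by omega) _) ?_
  refine Run.seq (run_genTs s _ (un B) X N [] v (by omega) (by omega) _ _) ?_
  refine Run.congr (run_pushL L 13 _ _) rfl ?_
  simp only [K13, upd13, un_add, rowC, addCode_append]
  rw [show nCh P k + (b + B * nCh P k) = b + nRow P k B by omega]

/-- program writing the whole tableau formula -/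
def genTab (P : List Instr) (k acc : ℕ) : Cmd :=
  .seq (.pushL 9 (BForm.disj (.var 0) (.neg (.var 0))).code)
  (.seq (.loop 10 .nop (.seq (.push 16 true) (.pushL 14 (un (nCh P k)))))
  (.seq (.mv 16 10)
  (.seq (.pushL 14 (un (nCh P k)))
  (.seq (.copy 10 17 15)
  (.seq (.loop 17 .nop (genRow P k))
  (.seq (genTs (nCh P k) (finT P k acc))
  (.seq (.clear 13)
  (.seq (genTs (nCh P k) (init0T k))
  (.seq (genLoop (nCh P k) (initBT k) 10)
  (.seq (.clear 13) (.clear 14)))))))))))

/-- loop bound of `genTab` -/
def tabT (P : List Instr) (k : ℕ) (B : ℕ) : ℕ := (B + 1) * (B + 1) * (nCh P k + 1)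

theorem run_genTab (P : List Instr) (k acc : ℕ) (s : St) (X N : List Bool) (B : ℕ) :
    Run (tabT P k B) (genTab P k acc) (K s [] (un B) X N [] [] [] [] [])
      (K s (tabF P k acc B).code (un B) X N [] [] [] [] []) := by
  set L := tabT P k B with hL
  set Cn := nCh P k with hCn
  have hR : nRow P k B = B * Cn + Cn := by unfold nRow; ring
  have hBB : B * nRow P k B = B * B * Cn + B * Cn := by rw [hR]; ring
  have hL' : L = B * B * Cn + 2 * (B * Cn) + Cn + (B * B + 2 * B + 1) := by
    rw [hL]; unfold tabT; rw [← hCn]; ring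
  have hRL : nRow P k B + B * nRow P k B ≤ L := by
    rw [hBB, hL', hR]; omega
  have hBL : B ≤ L := by rw [hL']; omega
  refine Run.seq (run_pushL L 9 _ _) ?_
  simp only [K9, upd9, List.append_nil]
  have h1 := run_loop_un (L := L) (r := 10)
    (c := .seq (.push 16 true) (.pushL 14 (un Cn))) hBL
    (fun i => K s (BForm.disj (.var 0) (.neg (.var 0))).code (un (B - i)) X N
      [] (un (i * Cn)) [] (un i) []) rfl (by
      intro i hi
      refine Run.congr ((run_push L 16 true _).seq (run_pushL L 14 (un Cn) _)) rfl ?_
      simp only [upd10, upd16, K14, K16, upd14, un_add]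
      rw [show B - 1 - i = B - (i + 1) by omega, show Cn + i * Cn = (i + 1) * Cn by ring]
      rfl)
  refine Run.seq (Run.congr h1 (by simp) rfl) ?_
  refine Run.seq (run_mv (a := 16) (b := 10) (by decide) (by simpa using hBL)) ?_
  simp only [K16, upd16, K10, upd10, un_rev, Nat.sub_self, un_zero, List.append_nil]
  refine Run.seq (run_pushL L 14 _ _) ?_
  simp only [K14, upd14, un_add]
  rw [show Cn + B * Cn = nRow P k B by omega]
  have h2 : Run L (.copy 10 17 15) (K s (BForm.disj (.var 0) (.neg (.var 0))).code (un B) X N
      [] (un (nRow P k B)) [] [] []) (K s (BForm.disj (.var 0) (.neg (.var 0))).code (un B) X N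
      [] (un (nRow P k B)) [] [] (un B)) := by
    refine ⟨?_, Cmd.LB_copy (by decide) (by decide) (by decide) rfl (by simpa using hBL)⟩
    rw [Cmd.eval_copy (by decide) (by decide) (by decide) rfl]
    simp
  refine Run.seq h2 ?_
  have h3 := run_loop_un (L := L) (r := 17) (c := genRow P k) hBL
    (fun i => K s (addCode (seqC (nRow P k B) (rowC P k B) i 0)
      (BForm.disj (.var 0) (.neg (.var 0))).code) (un B) X N
      (un (i * nRow P k B)) (un (nRow P k B)) [] [] (un (B - i))) rfl (by
      intro i hi
      refine Run.congr (run_genRow (B := B) (b := i * nRow P k B) P k s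
        (addCode (seqC (nRow P k B) (rowC P k B) i 0)
          (BForm.disj (.var 0) (.neg (.var 0))).code) X N (un (B - 1 - i)) ?_ hBL)
        (by simp only [upd17]) ?_
      · have : i * nRow P k B ≤ B * nRow P k B := Nat.mul_le_mul_right _ hi.le
        omega
      · rw [seqC_succ, addCode_append, show B - 1 - i = B - (i + 1) by omega,
          show i * nRow P k B + nRow P k B = (i + 1) * nRow P k B by ring, zero_add])
  refine Run.seq (Run.congr h3 (by simp [seqC, addCode_nil]) rfl) ?_
  refine Run.seq (run_genTs s _ (un B) X N [] _ (by omega) (by omega) _ _) ?_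
  refine Run.seq (run_clear (by simp; omega)) ?_
  simp only [upd13, Nat.sub_self, un_zero]
  refine Run.seq (run_genTs (b := 0) s _ (un B) X N [] [] (by omega) (by omega) _ _) ?_
  have h4 := run_genLoop10 (L := L) (b := 0) (R := nRow P k B) (n := B) (Cn := Cn) s
    (addCode (List.map (instL Cn (nRow P k B) 0) (init0T k))
      (addCode (List.map (instL Cn (nRow P k B) (B * nRow P k B)) (finT P k acc))
        (addCode (seqC (nRow P k B) (rowC P k B) B 0)
          (BForm.disj (.var 0) (.neg (.var 0))).code))) X N [] (by omega) (by omega) (by omega)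
    (initBT k)
  refine Run.seq h4 ?_
  refine Run.seq (run_clear (by simp; omega)) ?_
  simp only [upd13]
  refine Run.congr (run_clear (by simp; omega)) rfl ?_
  simp only [upd14, tabF, ← addCode_addF, tabC, addCode_append, ← hCn]

end Pool.Agent.Helper73.GenProg
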